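import Pool.Agent.H97.HV.Targets

/-!
# Row ENM of the board `hov_modules` (MP_e37c09_lc): the enumeration
-/

set_option autoImplicit false

open Ordinal Cardinal Order Set
open scoped ZFSet

universe u

namespace Pool.Agent.H91.HV

open _root_.HD HD.PRK HD.HV

open Classical in
theorem pf_ENM (h0 : T_PVA.{u}) (h1 : T_UNI.{u}) (h2 : T_WZF.{u}) : T_ENM.{u} := by
  intro K hK hK0 γ hF hf
  obtain ⟨t, -, ht1, ht2⟩ := HD.All.pr.{u}
  have hmin : min γ K.ord = γ := min_eq_left hF.le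
  -- the empty set
  have hγ0 : (0 : Ordinal.{u}) < γ := by
    have := hF.lim.bot_lt
    rwa [Ordinal.bot_eq_zero] at this
  have hE : WV γ K.ord (∅ : ZFSet.{u}) := by
    refine ⟨?_, ZFSet.empty_subset _⟩
    rw [hmin]
    refine h0.2.1 γ hF.lim ∅ ?_
    rw [ZFSet.mem_vonNeumann, ZFSet.rank_empty]
    exact hγ0
  -- the enumerations
  choose! f hf using hf
  have hg : ∀ l < γ, ∃ g : Ordinal.{u} → ZFSet.{u}, ∀ a ∈ V_ l, ∃ i < K.ord, a = g i := by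
    intro l hl
    obtain ⟨ν, hν, g, hg⟩ := hF.few l hl
    refine ⟨g, fun a ha => ?_⟩
    obtain ⟨i, hi, e⟩ := hg a ha
    exact ⟨i, hi.trans (Cardinal.ord_lt_ord.2 hν), e⟩
  choose! g hg using hg
  -- the sets
  set X : Ordinal.{u} → Ordinal.{u} → Ordinal.{u} → ZFSet.{u} := fun l ζ i =>
    ZFSet.sep (fun z => ZFSet.pair (g l i) z ∈ f l ζ) (Wz γ K.ord) with hX
  set e : Ordinal.{u} → ZFSet.{u} := fun θ =>
    if h : ∃ x, WV γ K.ord x ∧ ∃ l ζ i, θ = t (t l ζ) i ∧ x = X l ζ i then h.choose else ∅ with he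
  refine ⟨e, fun θ => ?_, fun x hx => ?_⟩
  · simp only [he]
    split_ifs with h
    · exact h.choose_spec.1
    · exact hE
  · have hx1 := hx.1
    have hxW := h2.2.2 γ K.ord x hx
    rw [hmin] at hx1
    have hpv : PV γ x := hx1.self
    obtain ⟨a, ha, hax⟩ := hpv
    obtain ⟨l, hl, hal⟩ : ∃ l < γ, a ∈ V_ l := by
      rw [ZFSet.mem_vonNeumann] at ha
      refine ⟨succ a.rank, hF.lim.succ_lt ha, ?_⟩
      rw [ZFSet.mem_vonNeumann]
      exact lt_succ _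
    obtain ⟨R, hR1, hR2, hR3⟩ := h1.1 l (Wz γ K.ord) a x (h2.2.1 γ K.ord) hal hax hxW
    obtain ⟨ζ, hζ, hRζ⟩ := hf l hl R hR1 hR2
    obtain ⟨i, hi, hai⟩ := hg l hl a hal
    have hxX : x = X l ζ i := by
      ext z
      simp only [hX]
      rw [ZFSet.mem_sep, ← hai, ← hRζ, hR3 z]
      exact ⟨fun h => ⟨hxW h, h⟩, fun h => h.2⟩
    have hlK : l < K.ord := hl.trans_le hF.le
    have hKle : ℵ₀ ≤ K := hK0.le
    refine ⟨t (t l ζ) i, ht2 K hKle _ (ht2 K hKle l hlK ζ hζ) i hi, ?_⟩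
    have hex : ∃ x, WV γ K.ord x ∧ ∃ l' ζ' i', t (t l ζ) i = t (t l' ζ') i' ∧ x = X l' ζ' i' :=
      ⟨x, hx, l, ζ, i, rfl, hxX⟩
    simp only [he]
    rw [dif_pos hex]
    obtain ⟨-, l', ζ', i', e1, e2⟩ := hex.choose_spec
    obtain ⟨e3, e4⟩ := ht1 _ _ _ _ e1
    obtain ⟨e5, e6⟩ := ht1 _ _ _ _ e3
    rw [e2, hxX, ← e4, ← e5, ← e6]

end Pool.Agent.H91.HV
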