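import Pool.Agent.H97.HV.Targets2

/-!
# MP_e37c09_lc, small sets of points over HOD(V_ γ): all levels
-/

open Ordinal Cardinal Order Set
open scoped ZFSet

universe u

namespace Pool.Agent.H91.HV

open _root_.HD HD.PRK HD.HV

theorem gdv_mono {μ ρ : Ordinal.{u}} {P Q : ZFSet.{u} → Prop} (h : PosX μ ρ P)
    (hPQ : ∀ x, P x → Q x) : PosX μ ρ Q := fun C hC => by
  obtain ⟨x, hx, hp⟩ := h C hC
  exact ⟨x, hx, hPQ x hp⟩

theorem gdv_symm {F x y : ZFSet.{u}} {n : Ordinal.{u}} (h : AgV F x y n) : AgV F y x n :=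
  fun k hk a => (h k hk a).symm

theorem gdv_trans {F x y z : ZFSet.{u}} {n : Ordinal.{u}} (h : AgV F x y n) (h' : AgV F y z n) :
    AgV F x z n := fun k hk a => (h k hk a).trans (h' k hk a)

theorem gdv_le {F x y : ZFSet.{u}} {m n : Ordinal.{u}} (h : AgV F x y n) (hm : m ≤ n) :
    AgV F x y m := fun k hk => h k (hk.trans_le hm)

/-- Fewer than `K` homogeneous classes suffice. -/
theorem gdv_hnv {μ : Ordinal.{u}} {K : Cardinal.{u}} {F : ZFSet.{u}} {n : Ordinal.{u}}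
    (ι : Type (u + 1)) (P : ι → ZFSet.{u} → Prop) (hι : #ι < Cardinal.lift.{u + 1} K)
    (hP : ∀ i x y, P i x → P i y → AgV F x y n)
    (hn : ¬ PosX μ K.ord fun x => ∀ i, ¬ P i x) : HnV μ K F n := by
  classical
  obtain ⟨c, hc⟩ := Cardinal.mem_range_lift_of_le hι.le
  have hcK : c < K := by
    rw [← hc] at hι
    exact Cardinal.lift_lt.1 hι
  have e : #ι = #(Iio c.ord) := by
    rw [Cardinal.mk_Iio_ordinal, card_ord, hc]
  obtain ⟨e⟩ := Cardinal.eq.1 e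
  have h1 : ∀ i, ∃ r, ∀ x, P i x → AgV F x r n := by
    intro i
    by_cases h : ∃ x, P i x
    · obtain ⟨r, hr⟩ := h
      exact ⟨r, fun x hx => hP i x r hx hr⟩
    · exact ⟨∅, fun x hx => absurd ⟨x, hx⟩ h⟩
  choose r hr using h1
  refine ⟨c, hcK, fun a => if ha : a < c.ord then r (e.symm ⟨a, ha⟩) else ∅, fun hpos => ?_⟩
  refine hn (gdv_mono hpos fun x hx i hi => ?_)
  have h3 : (e i).1 < c.ord := (e i).2
  refine hx (e i).1 h3 ?_
  simpa only [h3, dif_pos, Subtype.coe_eta, Equiv.symm_apply_apply] using hr i x hi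

/-- A positive class contains a subset of `K.ord`. -/
theorem gdv_sub {μ : Ordinal.{u}} {K : Cardinal.{u}} (hK : ℵ₀ < K) {F x : ZFSet.{u}}
    {n : Ordinal.{u}} (h : PcV μ K.ord F x n) :
    ∃ z ⊆ K.ord.toZFSet, AgV F z x n ∧ PcV μ K.ord F z n := by
  have hl : IsSuccLimit K.ord := Cardinal.isSuccLimit_ord hK.le
  obtain ⟨z, hz, hzx⟩ := h Set.univ
    ⟨fun a ha => ⟨succ a, hl.succ_lt ha, lt_succ a, trivial⟩, fun _ _ _ _ => trivial⟩
  refine ⟨z, fun w hw => ?_, hzx, gdv_mono h fun y hy => gdv_trans hy (gdv_symm hzx)⟩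
  obtain ⟨a, ha, -, -, rfl⟩ := hz.mem w hw
  exact toZFSet_mem_toZFSet_iff.2 ha

/-- The first place of difference of two sets in positive classes is a splitting point. -/
theorem gdv_spl {μ : Ordinal.{u}} {K : Cardinal.{u}} (hK : ℵ₀ < K) {F x y x' y' : ZFSet.{u}}
    {k : Ordinal.{u}} (hk : k < K.ord) (hx : PcV μ K.ord F x' (succ k))
    (hy : PcV μ K.ord F y' (succ k)) (hxx : AgV F x x' (succ k)) (hyy : AgV F y y' (succ k))
    (hxy : AgV F x y k) (hne : ¬ Eqv F x y k) : k ∈ SpV μ K.ord F := by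
  obtain ⟨z, hz, hzx, hzp⟩ := gdv_sub hK hx
  obtain ⟨w, hw, hwy, hwp⟩ := gdv_sub hK hy
  have h1 : AgV F z x (succ k) := gdv_trans hzx (gdv_symm hxx)
  have h2 : AgV F w y (succ k) := gdv_trans hwy (gdv_symm hyy)
  refine ⟨hk, z, hz, w, hw, hzp, hwp, ?_, fun h => hne fun a => ?_⟩
  · exact gdv_trans (gdv_le h1 (le_succ k)) (gdv_trans hxy (gdv_symm (gdv_le h2 (le_succ k))))
  · exact ((h1 k (lt_succ k) a).symm.trans (h a)).trans (h2 k (lt_succ k) a)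

theorem gdv_fun {D : Cardinal.{u}} (hD : D.IsStrongLimit) (A B : Type (u + 1))
    (hD0 : ℵ₀ < D) (hA : #A < Cardinal.lift.{u + 1} D) (hB : #B < Cardinal.lift.{u + 1} D) :
    #(A → B) < Cardinal.lift.{u + 1} D := by
  have h1 : #(A → B) ≤ #(Set (A × B)) := by
    refine Cardinal.mk_le_of_injective (f := fun f => {p : A × B | f p.1 = p.2}) ?_
    intro f g h
    funext a
    have h2 : ((a, f a) : A × B) ∈ {p : A × B | f p.1 = p.2} := rfl
    have h3 : ((a, f a) : A × B) ∈ {p : A × B | g p.1 = p.2} := by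
      have h4 : {p : A × B | f p.1 = p.2} = {p : A × B | g p.1 = p.2} := h
      rw [← h4]
      exact h2
    exact h3.symm
  refine h1.trans_lt ?_
  have h2 : #(A × B) < Cardinal.lift.{u + 1} D := by
    rw [Cardinal.mk_prod, Cardinal.lift_id, Cardinal.lift_id]
    exact Cardinal.mul_lt_of_lt (by rw [Cardinal.aleph0_le_lift]; exact hD0.le) hA hB
  rw [Cardinal.mk_set]
  obtain ⟨c, hc⟩ := Cardinal.mem_range_lift_of_le h2.le
  rw [← hc, Cardinal.lift_lt] at h2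
  rw [← hc, ← Cardinal.lift_two_power, Cardinal.lift_lt]
  exact hD.isStrongPrelimit h2

/-- the bound of fewer than `D` ordinals less than `D.ord` -/
theorem gdv_bd {D : Cardinal.{u}} (hD : D.IsRegular) {S : Set Ordinal.{u}} (hS : Few D.ord S)
    (T : Ordinal.{u} → Ordinal.{u}) (hT : ∀ m, T m < D.ord) :
    ∃ τ < D.ord, 0 < τ ∧ ∀ s ∈ S, T s ≤ τ := by
  obtain ⟨σ, hσ, e, he⟩ := hS
  let c : σ.ToType → Ordinal.{u} := fun t => T (e (Ordinal.ToType.mk.symm t).1)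
  have hsup : ⨆ t, c t < D.ord := by
    refine Ordinal.iSup_lt_of_lt_cof ?_ fun t => hT _
    rw [Cardinal.mk_toType, hD.cof_ord]
    exact Cardinal.lt_ord.1 hσ
  refine ⟨succ (⨆ t, c t), (Cardinal.isSuccLimit_ord hD.aleph0_le).succ_lt hsup,
    lt_of_le_of_lt bot_le (lt_succ (⨆ t, c t)), fun s hs => ?_⟩
  obtain ⟨i, hi, hie⟩ := he s hs
  have h4 : c (Ordinal.ToType.mk ⟨i, hi⟩) = T s := by
    simp only [c, OrderIso.symm_apply_apply, hie]
  rw [← h4]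
  exact (le_ciSup Ordinal.bddAbove_of_small _).trans (le_succ _)

/-- a limit level -/
theorem gdv_lim (h0 : T_NU1.{u}) {D K : Cardinal.{u}} (hDr : D.IsRegular)
    (hDs : D.IsStrongLimit) (hD0 : ℵ₀ < D) (hK : K.IsRegular) (hDK : D < K) {μ : Ordinal.{u}}
    {F : ZFSet.{u}} (hS : Few D.ord (SpV μ K.ord F)) {n : Ordinal.{u}} (hn : n < K.ord)
    (hl : IsSuccLimit n) (ih : ∀ m < n, GdV D.ord μ K.ord F m) : HnV μ K F n := by
  classical
  have hK0 : ℵ₀ < K := hD0.trans hDK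
  have hD0' : (0 : Ordinal.{u}) < D.ord := (Cardinal.isSuccLimit_ord hD0.le).bot_lt
  have h1 : ∀ m, ∃ τ < D.ord, ∃ g : Ordinal.{u} → ZFSet.{u}, m < n →
      (∀ i < τ, PcV μ K.ord F (g i) m) ∧ ¬ PosX μ K.ord fun x => ∀ i < τ, ¬ AgV F x (g i) m := by
    intro m
    by_cases hm : m < n
    · obtain ⟨τ, hτ, g, h⟩ := ih m hm
      exact ⟨τ, hτ, g, fun _ => h⟩
    · exact ⟨0, hD0', fun _ => ∅, fun h => absurd h hm⟩
  choose T hT G hG using h1
  obtain ⟨τ, hτ, hτ0, hτS⟩ := gdv_bd hDr hS (fun s => T (succ s)) fun m => hT _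
  have hcS : #↥(SpV μ K.ord F) < Cardinal.lift.{u + 1} D := few_iff.1 hS
  have hcτ : #↥(Iio τ) < Cardinal.lift.{u + 1} D := by
    rw [Cardinal.mk_Iio_ordinal, Cardinal.lift_lt]
    exact Cardinal.lt_ord.1 hτ
  have hcn : #↥(Iio n) < Cardinal.lift.{u + 1} K := by
    rw [Cardinal.mk_Iio_ordinal, Cardinal.lift_lt]
    exact Cardinal.lt_ord.1 hn
  refine gdv_hnv (↥(SpV μ K.ord F) → ↥(Iio τ))
    (fun f x => (∀ m < n, ∃ i < T m, AgV F x (G m i) m) ∧
      ∀ s, s.1 < n → AgV F x (G (succ s.1) (f s).1) (succ s.1)) ?_ ?_ ?_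
  · exact (gdv_fun hDs _ _ hD0 hcS hcτ).trans (Cardinal.lift_lt.2 hDK)
  · rintro f x y ⟨hx1, hx2⟩ ⟨hy1, hy2⟩ k hk
    induction k using WellFoundedLT.induction with
    | _ k ihk =>
    by_contra hne
    have hsk : succ k < n := hl.succ_lt hk
    obtain ⟨i, hi, hix⟩ := hx1 _ hsk
    obtain ⟨i', hi', hiy⟩ := hy1 _ hsk
    have hkS : k ∈ SpV μ K.ord F := gdv_spl hK0 (hk.trans hn) ((hG _ hsk).1 i hi)
      ((hG _ hsk).1 i' hi') hix hiy (fun a ha => ihk a ha (ha.trans hk)) hne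
    exact hne (gdv_trans (hx2 ⟨k, hkS⟩ hk) (gdv_symm (hy2 ⟨k, hkS⟩ hk)) k (lt_succ k))
  · intro hpos
    refine h0 μ K hK hK0 ↥(Iio n) (fun m x => ∀ i < T m.1, ¬ AgV F x (G m.1 i) m.1) hcn
      (fun m => (hG m.1 m.2).2) (gdv_mono hpos fun x hx => ?_)
    by_contra hcon
    have h3 : ∀ m < n, ∃ i < T m, AgV F x (G m i) m := by
      intro m hm
      by_contra h4
      push Not at h4
      exact hcon ⟨⟨m, hm⟩, h4⟩
    have h5 : ∀ s : ↥(SpV μ K.ord F), ∃ i : ↥(Iio τ), s.1 < n →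
        AgV F x (G (succ s.1) i.1) (succ s.1) := by
      intro s
      by_cases hs : s.1 < n
      · obtain ⟨i, hi, hix⟩ := h3 _ (hl.succ_lt hs)
        exact ⟨⟨i, hi.trans_le (hτS s.1 s.2)⟩, fun _ => hix⟩
      · exact ⟨⟨0, hτ0⟩, fun h => absurd h hs⟩
    choose f hf using h5
    exact hx f ⟨h3, hf⟩

theorem pf_GDV (h1 : T_TWV.{u}) (h2 : T_LCB.{u}) : T_GDV.{u} := by
  classical
  intro δ hδ hA K hK hδK μ hμ hμω l hl F hF hv n hn
  obtain ⟨η, -, θ, j, hj⟩ := HD.All.xa δ hδ 0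
  obtain ⟨D, rfl, hDr, hDs, hD0⟩ := HD.All.xb δ η θ j hj
  have hDK : D < K := Cardinal.ord_lt_ord.1 hδK
  have hK0 : ℵ₀ < K := hD0.trans hDK
  have hS := h1 D.ord hδ hA K hK hδK μ hμ hμω F hF
  induction n using WellFoundedLT.induction with
  | _ n ih =>
  refine h2 D.ord hδ hA K hK hδK μ hμ hμω F hF n hn ?_
  rcases n.zero_or_succ_or_isSuccLimit with rfl | ⟨m, rfl⟩ | hlim
  · refine gdv_hnv PUnit.{u + 2} (fun _ _ => True) ?_ (fun _ x y _ _ k hk => ?_) ?_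
    · rw [Cardinal.mk_punit]
      refine Cardinal.one_lt_aleph0.trans_le ?_
      rw [Cardinal.aleph0_le_lift]
      exact hK0.le
    · exact absurd hk (not_lt.2 bot_le)
    · intro hpos
      obtain ⟨x, -, hx⟩ := hpos Set.univ ⟨fun a ha => ⟨succ a,
        (Cardinal.isSuccLimit_ord hK0.le).succ_lt ha, lt_succ a, trivial⟩,
          fun _ _ _ _ => trivial⟩
      exact hx ⟨⟩ trivial
  · obtain ⟨τ, hτ, g, -, hg⟩ := ih m (lt_succ m) ((lt_succ m).trans hn)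
    obtain ⟨ν, hν, e, he⟩ := hl
    refine gdv_hnv (↥(Iio τ) × ↥(Iio ν.ord))
      (fun p x => AgV F x (g p.1.1) m ∧ ZFSet.sep (fun a => ZFSet.pair x
        (ZFSet.pair m.toZFSet a) ∈ F) (V_ l) = e p.2.1) ?_ ?_ ?_
    · rw [Cardinal.mk_prod, Cardinal.lift_id, Cardinal.lift_id]
      refine Cardinal.mul_lt_of_lt (by rw [Cardinal.aleph0_le_lift]; exact hK0.le) ?_ ?_
      · rw [Cardinal.mk_Iio_ordinal, Cardinal.lift_lt]
        exact (Cardinal.lt_ord.1 hτ).trans hDK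
      · rw [Cardinal.mk_Iio_ordinal, Cardinal.lift_lt, Cardinal.card_ord]
        exact hν
    · rintro p x y ⟨hx1, hx2⟩ ⟨hy1, hy2⟩ k hk
      rcases (lt_succ_iff.1 hk).lt_or_eq with h | rfl
      · exact gdv_trans hx1 (gdv_symm hy1) k h
      · intro a
        have h3 := ZFSet.ext_iff.1 (hx2.trans hy2.symm) a
        rw [ZFSet.mem_sep, ZFSet.mem_sep] at h3
        exact ⟨fun h => (h3.1 ⟨hv _ _ _ h, h⟩).2, fun h => (h3.2 ⟨hv _ _ _ h, h⟩).2⟩
    · intro hpos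
      refine hg (gdv_mono hpos fun x hx i hi hix => ?_)
      obtain ⟨a, ha, hea⟩ := he (ZFSet.sep (fun a => ZFSet.pair x
        (ZFSet.pair m.toZFSet a) ∈ F) (V_ l)) (by
          rw [succ_eq_add_one, ZFSet.vonNeumann_add_one, ZFSet.mem_powerset]
          exact fun z hz => (ZFSet.mem_sep.1 hz).1)
      exact hx ⟨⟨i, hi⟩, ⟨a, ha⟩⟩ ⟨hix, hea⟩
  · exact gdv_lim Pool.Agent.H97.PRK.a_NU1 hDr hDs hD0 hK hDK hS hn hlim
      fun m hm => ih m hm (hm.trans hn)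

end Pool.Agent.H91.HV
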