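import Pool.Agent.H91.HV.GDV
import Pool.Agent.H97.HV.Targets3

/-!
# MP_e37c09_lc, small sets of points over HOD(V_ γ): all levels, different bounds at the places
-/

open Ordinal Cardinal Order Set
open scoped ZFSet

universe u

namespace Pool.Agent.H91.HV

open _root_.HD HD.PRK HD.HV

theorem pf_GDW (h1 : T_TWV.{u}) (h2 : T_LCB.{u}) : T_GDW.{u} := by
  classical
  intro δ hδ hA K hK hδK μ hμ hμω F hF hv n hn
  obtain ⟨η, -, θ, j, hj⟩ := HD.All.xa δ hδ 0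
  obtain ⟨D, rfl, hDr, hDs, hD0⟩ := HD.All.xb δ η θ j hj
  have hDK : D < K := Cardinal.ord_lt_ord.1 hδK
  have hK0 : ℵ₀ < K := hD0.trans hDK
  have hS := h1 D.ord hδ hA K hK hδK μ hμ hμω F hF
  induction n using WellFoundedLT.induction with
  | _ n ih =>
  refine h2 D.ord hδ hA K hK hδK μ hμ hμω F hF n hn ?_
  rcases n.zero_or_succ_or_isSuccLimit with rfl | ⟨m, rfl⟩ | hlim
  · refine gdv_hnv PUnit.{u + 2} (fun _ _ => True) ?_ (fun _ x y _ _ k hk => ?_) ?_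
    · rw [Cardinal.mk_punit]
      refine Cardinal.one_lt_aleph0.trans_le ?_
      rw [Cardinal.aleph0_le_lift]
      exact hK0.le
    · exact absurd hk (not_lt.2 bot_le)
    · intro hpos
      obtain ⟨x, -, hx⟩ := hpos Set.univ ⟨fun a ha => ⟨succ a,
        (Cardinal.isSuccLimit_ord hK0.le).succ_lt ha, lt_succ a, trivial⟩,
          fun _ _ _ _ => trivial⟩
      exact hx ⟨⟩ trivial
  · have hm : m < K.ord := (lt_succ m).trans hn
    obtain ⟨τ, hτ, g, -, hg⟩ := ih m (lt_succ m) hm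
    obtain ⟨l, ⟨ν, hν, e, he⟩, hv⟩ := hv m hm
    refine gdv_hnv (↥(Iio τ) × ↥(Iio ν.ord))
      (fun p x => AgV F x (g p.1.1) m ∧ ZFSet.sep (fun a => ZFSet.pair x
        (ZFSet.pair m.toZFSet a) ∈ F) (V_ l) = e p.2.1) ?_ ?_ ?_
    · rw [Cardinal.mk_prod, Cardinal.lift_id, Cardinal.lift_id]
      refine Cardinal.mul_lt_of_lt (by rw [Cardinal.aleph0_le_lift]; exact hK0.le) ?_ ?_
      · rw [Cardinal.mk_Iio_ordinal, Cardinal.lift_lt]
        exact (Cardinal.lt_ord.1 hτ).trans hDK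
      · rw [Cardinal.mk_Iio_ordinal, Cardinal.lift_lt, Cardinal.card_ord]
        exact hν
    · rintro p x y ⟨hx1, hx2⟩ ⟨hy1, hy2⟩ k hk
      rcases (lt_succ_iff.1 hk).lt_or_eq with h | rfl
      · exact gdv_trans hx1 (gdv_symm hy1) k h
      · intro a
        have h3 := ZFSet.ext_iff.1 (hx2.trans hy2.symm) a
        rw [ZFSet.mem_sep, ZFSet.mem_sep] at h3
        exact ⟨fun h => (h3.1 ⟨hv _ _ h, h⟩).2, fun h => (h3.2 ⟨hv _ _ h, h⟩).2⟩
    · intro hpos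
      refine hg (gdv_mono hpos fun x hx i hi hix => ?_)
      obtain ⟨a, ha, hea⟩ := he (ZFSet.sep (fun a => ZFSet.pair x
        (ZFSet.pair m.toZFSet a) ∈ F) (V_ l)) (by
          rw [succ_eq_add_one, ZFSet.vonNeumann_add_one, ZFSet.mem_powerset]
          exact fun z hz => (ZFSet.mem_sep.1 hz).1)
      exact hx ⟨⟨i, hi⟩, ⟨a, ha⟩⟩ ⟨hix, hea⟩
  · exact gdv_lim Pool.Agent.H97.PRK.a_NU1 hDr hDs hD0 hK hDK hS hn hlim
      fun m hm => ih m hm (hm.trans hn)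

end Pool.Agent.H91.HV
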